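import Pool.Agent.N495.TS.StmN

/-!
# Torsion orders of quotients of products (helper265, project TS of helper495)
-/

set_option autoImplicit false

namespace Pool.Agent.N265.TS.TORSN

open Pool.Agent.Q19.SU

/-- a stable finite subgroup is the kernel of an integer -/
theorem one_var {V G : Type} [AddCommGroup V] (act : G → V →+ V)
    (hF : ∀ q : ℕ, q.Prime → Iso.Full act q) (L : AddSubgroup V) (hL : (L : Set V).Finite)
    (hst : ∀ σ, ∀ v ∈ L, act σ v ∈ L) : ∃ n : ℤ, n ≠ 0 ∧ ∀ v, v ∈ L ↔ n • v = 0 := by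
  set Γ : AddSubgroup (Fin 1 → V) := L.comap (Pi.evalAddMonoidHom (fun _ => V) 0) with hΓ
  have hmem : ∀ f : Fin 1 → V, f ∈ Γ ↔ f 0 ∈ L := fun f => Iff.rfl
  have hfin : Finite Γ := by
    have h1 : Finite L := hL
    refine Finite.of_injective (β := L) (fun f => ⟨f.1 0, f.2⟩) ?_
    intro f f' h
    refine Subtype.ext (funext fun i => ?_)
    have h2 : f.1 0 = f'.1 0 := congrArg Subtype.val h
    rw [Fin.eq_zero i]
    exact h2
  obtain ⟨N, hN0, hN⟩ := Iso.exists_matrix (act := act) (g := 1) (Nat.card Γ) Γ hfin rfl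
    (fun σ x hx => hst σ _ hx) (fun p hp _ => hF p hp)
  rw [Matrix.det_fin_one] at hN0
  refine ⟨N 0 0, hN0, fun v => ?_⟩
  have h := hN (fun _ => v)
  rw [hmem] at h
  rw [h]
  constructor
  · intro h1
    have h2 := congrFun h1 0
    rw [Iso.mulV_apply] at h2
    simpa using h2
  · intro h1
    funext i
    rw [Iso.mulV_apply, Fin.eq_zero i]
    simpa using h1

theorem many {G : Type} {g : ℕ} (V : Fin g → Type) [∀ i, AddCommGroup (V i)]
    (act : ∀ i, G → V i →+ V i) (hF : ∀ i, ∀ q : ℕ, q.Prime → Iso.Full (act i) q)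
    (Γ : AddSubgroup (∀ i, V i)) (hΓ : (Γ : Set (∀ i, V i)).Finite)
    (hst : ∀ σ : G, ∀ x ∈ Γ, (fun i => act i σ (x i)) ∈ Γ) (H : Set G) (s : Finset (Fin g)) :
    ∀ x : ∀ i, V i, (∀ j, j ∉ s → x j = 0) → (∀ σ ∈ H, (fun i => act i σ (x i) - x i) ∈ Γ) →
      IsOfFinAddOrder (x : (∀ i, V i) ⧸ Γ) →
      ∃ z : ∀ i, V i, (∀ i, IsOfFinAddOrder (z i)) ∧ (∀ i, ∀ σ ∈ H, act i σ (z i) = z i) ∧
        addOrderOf (x : (∀ i, V i) ⧸ Γ) ∣ ∏ i ∈ s, addOrderOf (z i) := by
  classical
  induction s using Finset.induction_on with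
  | empty =>
    intro x hx _ _
    have : x = 0 := funext fun j => hx j (Finset.notMem_empty j)
    refine ⟨0, fun i => IsOfFinAddOrder.zero, fun i σ _ => map_zero _, ?_⟩
    rw [this, QuotientAddGroup.mk_zero, addOrderOf_zero]
    exact one_dvd _
  | insert i s his ih =>
    intro x hx hσ hfin
    set Γs : AddSubgroup (∀ i, V i) :=
      { carrier := {γ | γ ∈ Γ ∧ ∀ j, j ∉ insert i s → γ j = 0}
        zero_mem' := ⟨Γ.zero_mem, fun _ _ => rfl⟩
        add_mem' := fun {a b} ha hb => ⟨Γ.add_mem ha.1 hb.1, fun j hj => by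
          rw [Pi.add_apply, ha.2 j hj, hb.2 j hj, add_zero]⟩
        neg_mem' := fun {a} ha => ⟨Γ.neg_mem ha.1, fun j hj => by
          rw [Pi.neg_apply, ha.2 j hj, neg_zero]⟩ } with hΓs
    have hmem : ∀ γ, γ ∈ Γs ↔ γ ∈ Γ ∧ ∀ j, j ∉ insert i s → γ j = 0 := fun γ => Iff.rfl
    set L : AddSubgroup (V i) := Γs.map (Pi.evalAddMonoidHom V i) with hL
    obtain ⟨n, hn0, hn⟩ := one_var (act i) (hF i) L (by
      have h1 : (Γs : Set (∀ i, V i)).Finite := hΓ.subset fun γ hγ => ((hmem γ).1 hγ).1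
      rw [hL, AddSubgroup.coe_map]
      exact h1.image _) (by
      rintro σ _ ⟨γ, hγ, rfl⟩
      have hγ' := (hmem γ).1 hγ
      refine ⟨fun i => act i σ (γ i), (hmem _).2 ⟨hst σ γ hγ'.1, fun j hj => ?_⟩, rfl⟩
      change act j σ (γ j) = 0
      rw [hγ'.2 j hj, map_zero])
    have hLx : ∀ γ ∈ Γ, (∀ j, j ∉ insert i s → γ j = 0) → n • γ i = 0 := fun γ h1 h2 =>
      (hn _).1 ⟨γ, (hmem γ).2 ⟨h1, h2⟩, rfl⟩
    have hm0 := addOrderOf_pos_iff.2 hfin
    have hmx : addOrderOf (x : (∀ i, V i) ⧸ Γ) • x ∈ Γ := by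
      rw [← QuotientAddGroup.eq_zero_iff]
      exact addOrderOf_nsmul_eq_zero (x : (∀ i, V i) ⧸ Γ)
    -- the element `z i`
    have hzfin : IsOfFinAddOrder (n • x i) := by
      rw [isOfFinAddOrder_iff_nsmul_eq_zero]
      refine ⟨_, hm0, ?_⟩
      have h1 := hLx _ hmx fun j hj => by rw [Pi.smul_apply, hx j hj, smul_zero]
      rw [Pi.smul_apply] at h1
      rw [smul_comm]
      exact h1
    have hzinv : ∀ σ ∈ H, act i σ (n • x i) = n • x i := by
      intro σ hσH
      have h1 := hLx _ (hσ σ hσH) fun j hj => by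
        change act j σ (x j) - x j = 0
        rw [hx j hj, map_zero, sub_zero]
      change n • (act i σ (x i) - x i) = 0 at h1
      rw [smul_sub, sub_eq_zero] at h1
      rw [map_zsmul]
      exact h1
    obtain ⟨mi, hmi⟩ : ∃ mi : ℕ, mi = addOrderOf (n • x i) := ⟨_, rfl⟩
    have h2 : mi • x i ∈ L := by
      rw [hn, smul_comm, hmi]
      exact addOrderOf_nsmul_eq_zero _
    obtain ⟨γ, hγ, hγi⟩ := h2
    have hγi' : γ i = mi • x i := hγi
    have hγ' := (hmem γ).1 hγ
    have hyx : ((mi • x - γ : ∀ i, V i) : (∀ i, V i) ⧸ Γ) = mi • (x : (∀ i, V i) ⧸ Γ) := by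
      rw [QuotientAddGroup.mk_sub, (QuotientAddGroup.eq_zero_iff γ).2 hγ'.1, sub_zero]
      rfl
    obtain ⟨z', hz1, hz2, hz3⟩ := ih (mi • x - γ) (by
      intro j hj
      by_cases hji : j = i
      · subst hji
        rw [Pi.sub_apply, hγi', Pi.smul_apply, sub_self]
      · have h1 : j ∉ insert i s := fun h => (Finset.mem_insert.1 h).elim hji hj
        rw [Pi.sub_apply, Pi.smul_apply, hx j h1, hγ'.2 j h1, smul_zero, sub_zero]) (by
      intro σ hσH
      have h1 := Γ.sub_mem (Γ.nsmul_mem (hσ σ hσH) mi) (Γ.sub_mem (hst σ γ hγ'.1) hγ'.1)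
      convert h1 using 1
      funext j
      simp only [Pi.sub_apply, Pi.smul_apply, map_sub, map_nsmul, smul_sub]
      abel) (by
      rw [hyx]
      exact hfin.nsmul)
    refine ⟨Function.update z' i (n • x i), fun j => ?_, fun j => ?_, ?_⟩
    · by_cases hj : j = i
      · subst hj
        rw [Function.update_self]
        exact hzfin
      · rw [Function.update_of_ne hj]
        exact hz1 j
    · by_cases hj : j = i
      · subst hj
        rw [Function.update_self]
        exact hzinv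
      · rw [Function.update_of_ne hj]
        exact hz2 j
    · rw [Finset.prod_insert his, Function.update_self, ← hmi]
      have h3 : ∏ j ∈ s, addOrderOf (Function.update z' i (n • x i) j) =
          ∏ j ∈ s, addOrderOf (z' j) := by
        refine Finset.prod_congr rfl fun j hj => ?_
        rw [Function.update_of_ne]
        rintro rfl
        exact his hj
      rw [h3]
      rw [hyx] at hz3
      refine dvd_trans ?_ (mul_dvd_mul_left mi hz3)
      apply addOrderOf_dvd_of_nsmul_eq_zero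
      rw [mul_comm, mul_smul]
      exact addOrderOf_nsmul_eq_zero _

theorem t_TORSN : Pool.Agent.N495.TS.S_TORSN := by
  intro G g V _ act hF Γ hΓ hst H x hσ hfin
  exact many V act hF Γ hΓ hst H Finset.univ x (fun j hj => absurd (Finset.mem_univ j) hj) hσ hfin

end Pool.Agent.N265.TS.TORSN
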